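import Pool.Agent.N977.P.Stm
import Pool.Agent.N977.S.Par3

/-!
Choice of the parameters of the cascade of packets: estimates (part `S_PAR` of project NSP; adapted
from `Pool/Agent/N977/S/Par2.lean`).
-/

open Set Filter Topology

namespace Pool.Agent.N724.NSP

open Pool.Agent.N977.P Pool.Agent.N977.S
open Pool.Agent.N977.Q (Mn al mu Mn_pos Mn_succ one_le_Mn log_Mn one_le_log logN_le n_le_L sum_small
  large_log al_pos mu_pos L_mono L_succ_le al_succ_le al_le Sgn exp_one_le one_le_L)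

theorem jm_aux {J L M y : ℝ} (h1 : (J - 1) * y ^ 250 ≤ M) (h2 : L ≤ y) (hL : 0 ≤ L) (hJ : 1 ≤ J)
    (h5 : L ^ 250 ≤ M) : J * L ^ 250 ≤ 2 * M := by
  have a1 : L ^ 250 ≤ y ^ 250 := pow_le_pow_left₀ hL h2 250
  have a2 : (J - 1) * L ^ 250 ≤ (J - 1) * y ^ 250 :=
    mul_le_mul_of_nonneg_left a1 (by linarith only [hJ])
  generalize y ^ 250 = Y at *
  generalize L ^ 250 = Z at *
  linarith

theorem e3_aux {E J L y x : ℝ} (hL1 : 1 ≤ L) (hLn : L ≤ y) (hE : 1 ≤ E) (hJ : 1 ≤ J)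
    (hx : x ≤ 5 * y ^ 2) : x * (E * (J / y ^ 250)) + J / y ^ 248 / L ^ 3 ≤ 6 * E * J / L ^ 248 := by
  have hy : 0 < y := by linarith
  have hL : 0 < L := by linarith
  have hE0 : 0 < E := by linarith
  have hJ0 : 0 < J := by linarith
  have b2 : x * (E * (J / y ^ 250)) ≤ 5 * y ^ 2 * (E * (J / y ^ 250)) :=
    mul_le_mul_of_nonneg_right hx (by positivity)
  have b3 : 5 * y ^ 2 * (E * (J / y ^ 250)) = 5 * E * J / y ^ 248 := by
    have : y ^ 250 = y ^ 2 * y ^ 248 := by rw [← pow_add]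
    rw [this]
    generalize y ^ 248 = Y
    have hy2 : y ^ 2 ≠ 0 := by positivity
    generalize y ^ 2 = Z at *
    field_simp
  have b4 : L ^ 248 ≤ y ^ 248 := pow_le_pow_left₀ hL.le hLn 248
  have b5 : 5 * E * J / y ^ 248 ≤ 5 * E * J / L ^ 248 :=
    div_le_div_of_nonneg_left (by positivity) (by positivity) b4
  have b6 : J / y ^ 248 / L ^ 3 ≤ E * J / L ^ 248 := by
    calc J / y ^ 248 / L ^ 3 ≤ J / y ^ 248 :=
          div_le_self (by positivity) (one_le_pow₀ hL1)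
      _ ≤ J / L ^ 248 := div_le_div_of_nonneg_left (by positivity) (by positivity) b4
      _ ≤ E * J / L ^ 248 := by
          apply div_le_div_of_nonneg_right _ (by positivity)
          exact le_mul_of_one_le_left hJ0.le hE
  have b7 : 6 * E * J / L ^ 248 = 5 * E * J / L ^ 248 + E * J / L ^ 248 := by
    rw [← add_div]; congr 1; ring
  rw [b7]
  rw [b3] at b2
  exact add_le_add (b2.trans b5) b6

/-- facts about the logarithms, the widths and the dissipation coefficients -/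
structure Fc (i : ℕ) (θ p c E B₀ C₁ h A X : ℝ) (J : ℕ → ℕ) (d D : ℕ → ℝ) : Prop where
  F : Lf i θ p c E B₀ C₁ h A 8
  jp : Jp J
  Xl : ∀ n, i ≤ n → X ≤ LL 8 n
  d1 : ∀ n, |d n - 4 * (c * (Mn 8 n : ℝ) ^ 2)| ≤ c * (Mn 8 n : ℝ) ^ 2 / 100
  D1 : ∀ n, |D n - 5 * (c * (Mn 8 n : ℝ) ^ 2)| ≤ c * (Mn 8 n : ℝ) ^ 2 / 100
  X1 : 80 * c + 80 + 2 * C₁ / θ + C₁ / (θ * c) + 100 * c * C₁ / θ ≤ X

variable {i : ℕ} {θ p c E B₀ C₁ h A X : ℝ} {J : ℕ → ℕ} {d D : ℕ → ℝ}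

section

variable (H : Fc i θ p c E B₀ C₁ h A X J d D) {n : ℕ} (hn : i ≤ n)
include H

theorem Fc.nn : 0 < 2 * C₁ / θ ∧ 0 < C₁ / (θ * c) ∧ 0 < 100 * c * C₁ / θ ∧ 0 < c := by
  have h1 := H.F.c0
  have h2 := H.F.θ0
  have h3 : 0 < C₁ := by have := H.F.C7; linarith
  refine ⟨by positivity, by positivity, by positivity, h1⟩

theorem Fc.M0 (n : ℕ) : (0 : ℝ) < Mn 8 n := by have := H.F.M1 n; linarith

theorem Fc.cM (n : ℕ) : 0 < c * (Mn 8 n : ℝ) ^ 2 := by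
  have := H.M0 n
  have := H.nn.2.2.2
  positivity

theorem Fc.dl (n : ℕ) : 3.99 * (c * (Mn 8 n : ℝ) ^ 2) ≤ d n := by
  have := (abs_le.1 (H.d1 n)).1
  linarith

theorem Fc.du (n : ℕ) : d n ≤ 4.01 * (c * (Mn 8 n : ℝ) ^ 2) := by
  have := (abs_le.1 (H.d1 n)).2
  linarith

theorem Fc.Dl (n : ℕ) : 4.99 * (c * (Mn 8 n : ℝ) ^ 2) ≤ D n := by
  have := (abs_le.1 (H.D1 n)).1
  linarith

theorem Fc.Du (n : ℕ) : D n ≤ 5.01 * (c * (Mn 8 n : ℝ) ^ 2) := by
  have := (abs_le.1 (H.D1 n)).2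
  linarith

omit H in
theorem Mn_add_eq (n k : ℕ) : (Mn 8 (n + k) : ℝ) = Mn 8 n * 2 ^ k := by
  unfold Mn; push_cast; rw [pow_add]; ring

theorem Fc.Lk (n k : ℕ) : LL 8 (n + k) ≤ 2 ^ k * LL 8 n := by
  induction k with
  | zero => simp
  | succ k ih =>
    have h1 := H.F.L2 (n + k)
    rw [← add_assoc]
    calc LL 8 (n + k + 1) ≤ 2 * LL 8 (n + k) := h1
      _ ≤ 2 * (2 ^ k * LL 8 n) := by linarith
      _ = _ := by ring

include hn

theorem Fc.XL : 80 * c + 80 ≤ LL 8 n ∧ 2 * C₁ / θ ≤ LL 8 n ∧ C₁ / (θ * c) ≤ LL 8 n ∧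
    100 * c * C₁ / θ ≤ LL 8 n := by
  obtain ⟨h1, h2, h3, h4⟩ := H.nn
  have h5 := H.Xl n hn
  have h6 := H.X1
  refine ⟨by linarith, by linarith, by linarith, by linarith⟩

theorem Fc.Ln : LL 8 n ≤ (n : ℝ) + 2 := by
  have h0 := H.F.L2000 hn
  have h1 : LL 8 n = Real.log (8 : ℕ) + n * Real.log 2 := log_Mn (by norm_num) n
  have h2 : Real.log ((8 : ℕ) : ℝ) = 3 * Real.log 2 := by
    rw [show ((8 : ℕ) : ℝ) = 2 ^ 3 by norm_num, Real.log_pow]; norm_num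
  rw [h2] at h1
  have h3 := Real.log_two_lt_d9
  have h4 : 0 < Real.log 2 := Real.log_pos (by norm_num)
  have hn0 : (0 : ℝ) ≤ n := Nat.cast_nonneg n
  by_contra hcon
  push Not at hcon
  -- then `n` is small
  have h5 : ((n : ℝ) + 2) < (n + 3) * 0.7 := by
    have : LL 8 n ≤ (n + 3) * 0.7 := by rw [h1]; nlinarith
    linarith
  have h6 : (n : ℝ) < 1 := by nlinarith
  have : LL 8 n ≤ 4 := by rw [h1]; nlinarith
  linarith

theorem Fc.nL : (n : ℝ) + 2 ≤ 3 * LL 8 n := by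
  have h1 := n_le_L (N := 8) (by norm_num) n
  have h3 := H.F.L2000 hn
  change ((n : ℝ) + 1) / 2 ≤ LL 8 n at h1
  linarith

theorem Fc.jm : (J n : ℝ) * LL 8 n ^ 250 ≤ 2 * Mn 8 n :=
  jm_aux (H.jp.up n) (H.Ln hn) (H.F.Lpos n).le (by exact_mod_cast H.jp.J1 n) (by
    have h5 := H.F.powM hn (k := 250) (B := 1) le_rfl H.F.A1
    rwa [one_mul] at h5)

theorem Fc.jm' : (J n : ℝ) / Mn 8 n ≤ 2 / LL 8 n ^ 250 := by
  have h0 := H.F.Lpos n
  have h1 := H.M0 n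
  rw [div_le_div_iff₀ h1 (by positivity)]
  exact H.jm hn

theorem Fc.noise (k : ℕ) : 4 / 3 * nzp J n (n + k) / d (n + k) ≤ (1 / 16) ^ k / LL 8 n ^ 240 := by
  have h0 := H.F.Lpos n
  have hc := H.nn.2.2.2
  have hM := H.M0 n
  have hMk := H.M0 (n + k)
  have h1 : 3 * (c * (Mn 8 (n + k) : ℝ) ^ 2) ≤ d (n + k) := by
    have := H.dl (n + k)
    have := H.cM (n + k)
    linarith
  have h2 : 0 < 3 * (c * (Mn 8 (n + k) : ℝ) ^ 2) := by have := H.cM (n + k); linarith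
  have hJ : (0 : ℝ) ≤ J n := Nat.cast_nonneg _
  have h3 : 0 ≤ 4 / 3 * nzp J n (n + k) := by unfold nzp; positivity
  refine (div_le_div_of_nonneg_left h3 h2 h1).trans ?_
  have h4 : 4 / 3 * nzp J n (n + k) / (3 * (c * (Mn 8 (n + k) : ℝ) ^ 2))
      = 4 / 9 * (1 / c) * LL 8 n ^ 9 * (J n / Mn 8 n) * (1 / 16) ^ k := by
    unfold nzp
    rw [Nat.add_sub_cancel_left, Mn_add_eq]
    have e1 : (1 / 16 : ℝ) ^ k = (1 / 8) ^ k / 2 ^ k := by rw [← div_pow]; norm_num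
    rw [e1]
    field_simp
    ring
  rw [h4]
  have h5 := H.jm' hn
  have h6 := H.F.Lc hn
  have h7 : 4 / 9 * (1 / c) * LL 8 n ^ 9 * (J n / Mn 8 n) * (1 / 16) ^ k
      ≤ 4 / 9 * (1 / c) * LL 8 n ^ 9 * (2 / LL 8 n ^ 250) * (1 / 16) ^ k := by
    apply mul_le_mul_of_nonneg_right _ (by positivity)
    exact mul_le_mul_of_nonneg_left h5 (by positivity)
  refine h7.trans ?_
  have h8 : 4 / 9 * (1 / c) * LL 8 n ^ 9 * (2 / LL 8 n ^ 250) * (1 / 16) ^ k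
      = (8 / 900 * (100 / c) / LL 8 n) * ((1 / 16) ^ k / LL 8 n ^ 240) := by
    field_simp; norm_num
  rw [h8]
  apply mul_le_of_le_one_left (by positivity)
  rw [div_le_one h0]
  linarith

theorem Fc.e0le (k : ℕ) : Pool.Agent.N977.S.e0 8 (n + k) ≤ (1 / 16) ^ k / LL 8 n ^ 240 := by
  have h0 := H.F.Lpos n
  have hM := H.M0 n
  have hM1 := H.F.M1 n
  unfold Pool.Agent.N977.S.e0
  rw [Mn_add_eq]
  have h1 := H.F.powM hn (k := 240) (B := 1) (by norm_num) H.F.A1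
  have e1 : (1 / 16 : ℝ) ^ k / LL 8 n ^ 240 = 1 / (16 ^ k * LL 8 n ^ 240) := by
    rw [one_div_pow]; field_simp
  rw [e1]
  apply one_div_le_one_div_of_le (by positivity)
  have e2 : ((Mn 8 n : ℝ) * 2 ^ k) ^ 5 = 32 ^ k * (Mn 8 n : ℝ) ^ 5 := by
    rw [mul_pow, ← pow_mul, mul_comm k 5, pow_mul]; norm_num; ring
  rw [e2]
  have e3 : (16 : ℝ) ^ k ≤ 32 ^ k := pow_le_pow_left₀ (by norm_num) (by norm_num) k
  have e4 : (Mn 8 n : ℝ) ≤ (Mn 8 n : ℝ) ^ 5 := le_self_pow₀ hM1 (by norm_num)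
  exact mul_le_mul e3 (by linarith) (by positivity) (by positivity)

theorem Fc.vle : ∀ m, n ≤ m → vvp J d n m ≤ 2 * ((1 / 16) ^ (m - n) / LL 8 n ^ 240) := by
  intro m hm
  obtain ⟨k, rfl⟩ := Nat.exists_eq_add_of_le hm
  rw [Nat.add_sub_cancel_left]
  unfold vvp
  have h1 := H.noise hn k
  have h2 := H.e0le hn k
  linarith

theorem Fc.w1 : ∀ m, n + 1 ≤ m → vvp J d n m ≤ 1 / LL 8 n ^ 200 := by
  intro m hm
  have h0 := H.F.Lpos n
  have h2 := H.F.L2000 hn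
  refine (H.vle hn m (by omega)).trans ?_
  have h3 : (1 / 16 : ℝ) ^ (m - n) ≤ 1 := pow_le_one₀ (by norm_num) (by norm_num)
  calc 2 * ((1 / 16 : ℝ) ^ (m - n) / LL 8 n ^ 240) ≤ 2 * (1 / LL 8 n ^ 240) := by
        apply mul_le_mul_of_nonneg_left _ (by norm_num)
        exact div_le_div_of_nonneg_right h3 (by positivity)
    _ = 2 / LL 8 n ^ 40 * (1 / LL 8 n ^ 200) := by field_simp
    _ ≤ 1 * (1 / LL 8 n ^ 200) := by
        apply mul_le_mul_of_nonneg_right _ (by positivity)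
        rw [div_le_one (by positivity)]
        have : LL 8 n ≤ LL 8 n ^ 40 := le_self_pow₀ (by linarith) (by norm_num)
        linarith
    _ = _ := one_mul _

theorem Fc.wτ : nzp J n n * (C₁ * LL 8 n ^ h / al θ 2 p 8 n) ≤ 1 / LL 8 n ^ 200 := by
  have h0 := H.F.Lpos n
  have h1 := H.F.τM n
  have hM := H.M0 n
  have hθ := H.F.θ0
  have hC : 0 < C₁ := by have := H.F.C7; linarith
  have hJ : (0 : ℝ) ≤ J n := Nat.cast_nonneg _
  have e1 : nzp J n n = LL 8 n ^ 9 * (J n * Mn 8 n) := by unfold nzp; simp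
  rw [e1]
  calc _ ≤ LL 8 n ^ 9 * (J n * Mn 8 n) * (C₁ * LL 8 n / (θ * (Mn 8 n : ℝ) ^ 2)) :=
        mul_le_mul_of_nonneg_left h1 (by positivity)
    _ = C₁ / θ * LL 8 n ^ 10 * (J n / Mn 8 n) := by field_simp
    _ ≤ C₁ / θ * LL 8 n ^ 10 * (2 / LL 8 n ^ 250) :=
        mul_le_mul_of_nonneg_left (H.jm' hn) (by positivity)
    _ = 2 * C₁ / θ / LL 8 n ^ 40 * (1 / LL 8 n ^ 200) := by field_simp
    _ ≤ 1 * (1 / LL 8 n ^ 200) := by
        apply mul_le_mul_of_nonneg_right _ (by positivity)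
        rw [div_le_one (by positivity)]
        have h2 := H.F.L2000 hn
        have h3 := (H.XL hn).2.1
        have : LL 8 n ≤ LL 8 n ^ 40 := le_self_pow₀ (by linarith) (by norm_num)
        linarith
    _ = _ := one_mul _

theorem Fc.vY : ∀ m, n ≤ m → vvp J d n m ≤ 1 / 2 * YYp n m := by
  intro m hm
  have h0 := H.F.Lpos n
  have h2 := H.F.L2000 hn
  refine (H.vle hn m hm).trans ?_
  unfold YYp
  calc 2 * ((1 / 16 : ℝ) ^ (m - n) / LL 8 n ^ 240)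
      = 4 / LL 8 n ^ 237 * (1 / 2 * ((1 / 16) ^ (m - n) / LL 8 n ^ 3)) := by field_simp; norm_num
    _ ≤ 1 * (1 / 2 * ((1 / 16) ^ (m - n) / LL 8 n ^ 3)) := by
        apply mul_le_mul_of_nonneg_right _ (by positivity)
        rw [div_le_one (by positivity)]
        have : LL 8 n ≤ LL 8 n ^ 237 := le_self_pow₀ (by linarith) (by norm_num)
        linarith
    _ = _ := one_mul _

theorem Fc.Y0 : 1 / LL 8 (n + 1) ^ 4 + vvp J d n (n + 2) ≤ YYp n (n + 2) := by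
  have h0 := H.F.Lpos n
  have h2 := H.F.L2000 hn
  have h1 := H.vY hn (n + 2) (by omega)
  have h3 : 1 / LL 8 (n + 1) ^ 4 ≤ 1 / 2 * YYp n (n + 2) := by
    unfold YYp
    rw [show n + 2 - n = 2 by omega]
    have a1 : 1 / LL 8 (n + 1) ^ 4 ≤ 1 / LL 8 n ^ 4 :=
      one_div_le_one_div_of_le (by positivity) (pow_le_pow_left₀ h0.le (H.F.Lm n) 4)
    refine a1.trans ?_
    have a2 : 1 / 2 * ((1 / 16 : ℝ) ^ 2 / LL 8 n ^ 3) = 1 / (512 * LL 8 n ^ 3) := by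
      field_simp; norm_num
    rw [a2]
    apply one_div_le_one_div_of_le (by positivity)
    calc 512 * LL 8 n ^ 3 ≤ LL 8 n * LL 8 n ^ 3 :=
          mul_le_mul_of_nonneg_right (by linarith) (by positivity)
      _ = _ := by ring
  linarith

theorem Fc.Ys : ∀ m, n + 2 ≤ m →
    9 / 8 * al θ 2 p 8 m * YYp n m ^ 2 * (1 / d (m + 1)) + vvp J d n (m + 1) ≤ YYp n (m + 1) := by
  intro m hm
  have h0 := H.F.Lpos n
  have h1 := H.vY hn (m + 1) (by omega)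
  have hc := H.nn.2.2.2
  obtain ⟨k, rfl⟩ := Nat.exists_eq_add_of_le (show n ≤ m by omega)
  have hM := H.M0 (n + k)
  have h2 : 9 / 8 * al θ 2 p 8 (n + k) * YYp n (n + k) ^ 2 * (1 / d (n + k + 1))
      ≤ 1 / 2 * YYp n (n + k + 1) := by
    unfold YYp
    rw [Nat.add_sub_cancel_left, show n + k + 1 - n = k + 1 by omega]
    have a0 := H.F.αle (n + k)
    have a1 := H.Lk n k
    have a2 := pow_le_pow_left₀ (H.F.Lpos (n + k)).le a1 2
    have a3 : al θ 2 p 8 (n + k) ≤ (Mn 8 (n + k) : ℝ) ^ 2 * (2 ^ k * LL 8 n) ^ 2 :=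
      a0.trans (mul_le_mul_of_nonneg_left a2 (by positivity))
    have a4 : 12 * (c * (Mn 8 (n + k) : ℝ) ^ 2) ≤ d (n + k + 1) := by
      have b1 := H.dl (n + k + 1)
      have b2 : (Mn 8 (n + k + 1) : ℝ) = 2 * Mn 8 (n + k) := by
        have := Mn_add_eq (n + k) 1
        rw [this]; ring
      rw [b2] at b1
      have b3 := H.cM (n + k)
      nlinarith
    have a5 : 0 < 12 * (c * (Mn 8 (n + k) : ℝ) ^ 2) := by have := H.cM (n + k); linarith
    have a6 : 1 / d (n + k + 1) ≤ 1 / (12 * (c * (Mn 8 (n + k) : ℝ) ^ 2)) :=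
      one_div_le_one_div_of_le a5 a4
    have a7 : 0 ≤ 1 / d (n + k + 1) := by
      have : 0 < d (n + k + 1) := by linarith
      positivity
    calc 9 / 8 * al θ 2 p 8 (n + k) * ((1 / 16) ^ k / LL 8 n ^ 3) ^ 2 * (1 / d (n + k + 1))
        ≤ 9 / 8 * ((Mn 8 (n + k) : ℝ) ^ 2 * (2 ^ k * LL 8 n) ^ 2) * ((1 / 16) ^ k / LL 8 n ^ 3) ^ 2
          * (1 / (12 * (c * (Mn 8 (n + k) : ℝ) ^ 2))) := by
          apply mul_le_mul _ a6 a7 (by positivity)
          apply mul_le_mul_of_nonneg_right _ (by positivity)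
          linarith
      _ = (1 / 16) ^ k * ((3 / 32) * (1 / c) * ((2 ^ k) ^ 2 * (1 / 16) ^ k) / LL 8 n ^ 4) := by
          field_simp; norm_num
      _ ≤ (1 / 16) ^ k * (1 / 32 / LL 8 n ^ 3) := by
          apply mul_le_mul_of_nonneg_left _ (by positivity)
          have b1 : ((2 : ℝ) ^ k) ^ 2 * (1 / 16) ^ k ≤ 1 := by
            rw [← pow_mul, mul_comm k 2, pow_mul, ← mul_pow]
            exact pow_le_one₀ (by norm_num) (by norm_num)
          have b2 := H.F.Lc hn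
          rw [div_le_div_iff₀ (by positivity) (by positivity)]
          have b3 : 3 / 32 * (1 / c) * ((2 ^ k) ^ 2 * (1 / 16) ^ k) ≤ 3 / 32 * (1 / c) * 1 :=
            mul_le_mul_of_nonneg_left b1 (by positivity)
          have b4 : 3 / 32 * (1 / c) * 1 ≤ 1 / 32 * LL 8 n := by
            have : 100 / c = 100 * (1 / c) := by ring
            rw [this] at b2
            linarith
          calc 3 / 32 * (1 / c) * ((2 ^ k) ^ 2 * (1 / 16) ^ k) * LL 8 n ^ 3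
              ≤ (1 / 32 * LL 8 n) * LL 8 n ^ 3 :=
                mul_le_mul_of_nonneg_right (b3.trans b4) (by positivity)
            _ = _ := by ring
      _ = 1 / 2 * ((1 / 16) ^ (k + 1) / LL 8 n ^ 3) := by rw [pow_succ]; ring
  linarith

omit hn in
/-- the sums with the bound `Xb` -/
theorem Fc.sm (g : ℕ → ℝ) (hg : ∀ m, 0 ≤ g m) (a S : ℝ) (ha : ∀ m, m ≤ n + 1 → g m ≤ a)
    (hS : Summable fun k : ℕ => (1 / 2 : ℝ) ^ k * g (n + k))
    (hS' : ∑' k : ℕ, (1 / 2 : ℝ) ^ k * g (n + k) ≤ S) :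
    (Summable fun m => 8 ^ (m - n) * (g m * Xb E n m)) ∧
    ∑' m, 8 ^ (m - n) * (g m * Xb E n m) ≤ ((n : ℝ) + 9) * (E * a) + S / LL 8 n ^ 3 := by
  have h0 := H.F.Lpos n
  have hE : 0 ≤ E := by have := H.F.E1; linarith
  have hterm : ∀ k : ℕ, (8 : ℝ) ^ (k + (n + 2) - n) * (g (k + (n + 2)) * Xb E n (k + (n + 2)))
      = ((1 / 2 : ℝ) ^ (k + 2) * g (n + (k + 2))) / LL 8 n ^ 3 := by
    intro k
    have e1 : k + (n + 2) - n = k + 2 := by omega
    have e2 : k + (n + 2) = n + (k + 2) := by omega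
    have e3 : ¬ (n + (k + 2) < n + 2) := by omega
    rw [e1, e2]
    unfold Xb
    rw [if_neg e3]
    unfold YYp
    rw [Nat.add_sub_cancel_left]
    have e4 : (1 / 2 : ℝ) ^ (k + 2) = 8 ^ (k + 2) * (1 / 16) ^ (k + 2) := by
      rw [← mul_pow]; norm_num
    rw [e4]
    ring
  have hS2 : Summable fun k : ℕ => (1 / 2 : ℝ) ^ (k + 2) * g (n + (k + 2)) :=
    (summable_nat_add_iff 2).2 hS
  have hsum : Summable fun m => (8 : ℝ) ^ (m - n) * (g m * Xb E n m) := by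
    rw [← summable_nat_add_iff (n + 2)]
    simp only [hterm]
    exact hS2.div_const _
  refine ⟨hsum, ?_⟩
  rw [← hsum.sum_add_tsum_nat_add (n + 2)]
  simp only [hterm]
  rw [tsum_div_const]
  have h1 : ∑' k : ℕ, (1 / 2 : ℝ) ^ (k + 2) * g (n + (k + 2)) ≤ S := by
    refine le_trans ?_ hS'
    rw [← hS.sum_add_tsum_nat_add 2]
    have : 0 ≤ ∑ k ∈ Finset.range 2, (1 / 2 : ℝ) ^ k * g (n + k) :=
      Finset.sum_nonneg fun k _ => mul_nonneg (by positivity) (hg _)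
    linarith
  have h2 : ∑ m ∈ Finset.range (n + 2), (8 : ℝ) ^ (m - n) * (g m * Xb E n m)
      ≤ ((n : ℝ) + 9) * (E * a) := by
    rw [Finset.sum_range_succ]
    have b1 : ∀ m ∈ Finset.range (n + 1), (8 : ℝ) ^ (m - n) * (g m * Xb E n m) ≤ E * a := by
      intro m hm
      rw [Finset.mem_range] at hm
      have e1 : m - n = 0 := by omega
      have e2 : m < n + 2 := by omega
      unfold Xb
      rw [e1, if_pos e2, pow_zero, one_mul, mul_comm]
      exact mul_le_mul_of_nonneg_left (ha m (by omega)) hE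
    have b2 := Finset.sum_le_sum b1
    rw [Finset.sum_const, Finset.card_range, nsmul_eq_mul] at b2
    have b3 : (8 : ℝ) ^ (n + 1 - n) * (g (n + 1) * Xb E n (n + 1)) ≤ 8 * (E * a) := by
      have e1 : n + 1 - n = 1 := by omega
      have e2 : n + 1 < n + 2 := by omega
      unfold Xb
      rw [e1, if_pos e2, pow_one, mul_comm (g (n + 1)) E]
      apply mul_le_mul_of_nonneg_left _ (by norm_num)
      exact mul_le_mul_of_nonneg_left (ha (n + 1) le_rfl) hE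
    push_cast at b2
    linarith
  have h3 : (∑' k : ℕ, (1 / 2 : ℝ) ^ (k + 2) * g (n + (k + 2))) / LL 8 n ^ 3 ≤ S / LL 8 n ^ 3 :=
    div_le_div_of_nonneg_right h1 (by positivity)
  linarith

theorem Fc.G : (Summable fun m => 8 ^ (m - n) * (J m * Xb E n m)) ∧
    (B₀ + 1) * J n + 100 * ∑' m, 8 ^ (m - n) * (J m * Xb E n m) < J n * LL 8 n ^ 4 := by
  have h0 := H.F.Lpos n
  have h2 := H.F.L2000 hn
  have hJm := monotone_nat_of_le_succ H.jp.mono
  have hJ1 : (1 : ℝ) ≤ J n := by exact_mod_cast H.jp.J1 n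
  have hs1 := H.jp.s1 n
  obtain ⟨h3, h4⟩ := H.sm (n := n) (fun m => (J m : ℝ)) (fun m => Nat.cast_nonneg _) (3 * J n)
    (10 * ((n : ℝ) + 2) ^ 2 * J n) (by
      intro m hm
      have a1 : J m ≤ 3 * J n := (hJm hm).trans (H.jp.three n)
      exact_mod_cast a1) hs1.1 hs1.2
  refine ⟨h3, ?_⟩
  have hnL := H.nL hn
  have hE := H.F.E1
  have hLE := H.F.LE hn
  have hB := H.F.Lb n hn
  have hB0 := H.F.B0
  have hC7 := H.F.C7
  have hc1 := H.F.c1
  have hc2 := H.F.c2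
  have hBL : B₀ + 1 ≤ LL 8 n := by
    have : 0 ≤ E := by linarith
    linarith
  set L := LL 8 n with hL
  have hn0 : (0 : ℝ) ≤ n := Nat.cast_nonneg n
  have hL1 : 1 ≤ L := by linarith
  -- everything divided by `J n`
  have a1 : ((n : ℝ) + 9) * (E * (3 * J n)) ≤ (12 * E * L) * J n := by
    have : (n : ℝ) + 9 ≤ 4 * L := by linarith
    have h5 : 0 ≤ E * (3 * (J n : ℝ)) := by positivity
    calc ((n : ℝ) + 9) * (E * (3 * J n)) ≤ (4 * L) * (E * (3 * J n)) :=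
          mul_le_mul_of_nonneg_right this h5
      _ = _ := by ring
  have a2 : 10 * ((n : ℝ) + 2) ^ 2 * J n / L ^ 3 ≤ 90 * J n := by
    have b1 : ((n : ℝ) + 2) ^ 2 ≤ (3 * L) ^ 2 := pow_le_pow_left₀ (by linarith) hnL 2
    rw [div_le_iff₀ (by positivity)]
    calc 10 * ((n : ℝ) + 2) ^ 2 * J n ≤ 10 * (3 * L) ^ 2 * J n := by
          apply mul_le_mul_of_nonneg_right _ (by linarith)
          linarith
      _ = 90 * J n * L ^ 2 := by ring
      _ ≤ 90 * J n * L ^ 3 := by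
          apply mul_le_mul_of_nonneg_left _ (by positivity)
          exact pow_le_pow_right₀ hL1 (by norm_num)
  have a3 : (B₀ + 1) * J n + 100 * ∑' m, 8 ^ (m - n) * (J m * Xb E n m)
      ≤ (L + 1200 * E * L + 9000) * J n := by
    have b1 : (B₀ + 1) * (J n : ℝ) ≤ L * J n := mul_le_mul_of_nonneg_right hBL (by linarith)
    have b2 := h4.trans (add_le_add a1 a2)
    linarith
  refine lt_of_le_of_lt a3 ?_
  rw [mul_comm (J n : ℝ)]
  apply mul_lt_mul_of_pos_right _ (by linarith)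
  have a4 : 1200 * E * L ≤ L * L := by
    have : 1200 * E ≤ L := by linarith
    exact mul_le_mul_of_nonneg_right this h0.le
  have a5 : L * L ≤ L ^ 4 / 4 := by
    have : (4 : ℝ) ≤ L ^ 2 := by nlinarith
    nlinarith [mul_self_nonneg L]
  have a6 : (9000 : ℝ) ≤ L * L := by nlinarith
  have a7 : L ≤ L * L := by nlinarith
  have a8 : 0 < L ^ 4 := by positivity
  linarith

theorem Fc.η1 :
    (Summable fun m => 8 ^ (m - n) * (J m * ((J m : ℝ) - 1) / Mn 8 m * Xb E n m)) ∧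
    ∑' m, 8 ^ (m - n) * (J m * ((J m : ℝ) - 1) / Mn 8 m * Xb E n m)
        ≤ 6 * E * J n / LL 8 n ^ 248 := by
  have hn0 : (0 : ℝ) ≤ n := Nat.cast_nonneg n
  have hL1 := H.F.L1 n
  have hLn := H.Ln hn
  have hE := H.F.E1
  have hJ1 : ∀ m, (1 : ℝ) ≤ J m := fun m => by exact_mod_cast H.jp.J1 m
  have hy : ∀ k : ℕ, (0 : ℝ) < ((n : ℝ) + 2) ^ k := fun k => by positivity
  have hb1 : ((n : ℝ) + 9) ≤ 5 * ((n : ℝ) + 2) ^ 2 := by nlinarith
  obtain ⟨h3, h4⟩ := H.sm (n := n) (fun m => (J m : ℝ) * ((J m : ℝ) - 1) / Mn 8 m)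
    (fun m => by
      have a1 := hJ1 m
      have a2 := H.M0 m
      have a3 : 0 ≤ (J m : ℝ) - 1 := by linarith
      positivity)
    (J n / ((n : ℝ) + 2) ^ 250) (J n / ((n : ℝ) + 2) ^ 248)
    (fun m hm => (le_div_iff₀ (hy 250)).2 (H.jp.s2 n m hm)) (H.jp.s3 n).1
    ((le_div_iff₀ (hy 248)).2 (H.jp.s3 n).2)
  exact ⟨h3, h4.trans (e3_aux hL1 hLn hE (hJ1 n) hb1)⟩

theorem Fc.η {C₂ r : ℝ} (hC₂ : 2 ≤ C₂) (hr : r ≤ 2) :
    (Summable fun m => 8 ^ (m - n) * (J m * ((J m : ℝ) - 1) / Mn 8 m * Xb E n m)) ∧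
    10 ^ 4 * (J n * LL 8 n ^ 4) ^ 2 * √((C₁ * LL 8 n ^ h / al θ 2 p 8 n) / c)
      + 10 ^ 4 * ∑' m, 8 ^ (m - n) * (J m * ((J m : ℝ) - 1) / Mn 8 m * Xb E n m)
        ≤ C₂ * LL 8 n ^ (-r) * J n := by
  have h0 := H.F.Lpos n
  have h2 := H.F.L2000 hn
  have hJ1 : ∀ m, (1 : ℝ) ≤ J m := fun m => by exact_mod_cast H.jp.J1 m
  have hθ := H.F.θ0
  have hc := H.nn.2.2.2
  have hM := H.M0 n
  have hC : 0 < C₁ := by have := H.F.C7; linarith
  have hE := H.F.E1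
  have hLE := H.F.LE hn
  obtain ⟨h3, h4⟩ := H.η1 hn
  refine ⟨h3, ?_⟩
  set L := LL 8 n with hL
  have hL1 : 1 ≤ L := by linarith
  have hJn := hJ1 n
  -- first term
  have e1 : √((C₁ * L ^ h / al θ 2 p 8 n) / c) ≤ L ^ 2 / Mn 8 n := by
    rw [← Real.sqrt_sq (by positivity : 0 ≤ L ^ 2 / (Mn 8 n : ℝ))]
    apply Real.sqrt_le_sqrt
    have a1 := div_le_div_of_nonneg_right (H.F.τM n) hc.le
    refine a1.trans ?_
    have a2 : C₁ * L / (θ * (Mn 8 n : ℝ) ^ 2) / c = (C₁ / (θ * c)) * L / (Mn 8 n : ℝ) ^ 2 := by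
      field_simp
    rw [← hL, a2, div_pow]
    apply div_le_div_of_nonneg_right _ (by positivity)
    have a3 := (H.XL hn).2.2.1
    calc C₁ / (θ * c) * L ≤ L * L := mul_le_mul_of_nonneg_right a3 h0.le
      _ = L ^ 2 * 1 := by ring
      _ ≤ L ^ 2 * L ^ 2 := mul_le_mul_of_nonneg_left (one_le_pow₀ hL1) (by positivity)
      _ = (L ^ 2) ^ 2 := by ring
  have e2 : 10 ^ 4 * ((J n : ℝ) * L ^ 4) ^ 2 * √((C₁ * L ^ h / al θ 2 p 8 n) / c)
      ≤ 1 / L ^ 2 * J n := by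
    calc _ ≤ 10 ^ 4 * ((J n : ℝ) * L ^ 4) ^ 2 * (L ^ 2 / Mn 8 n) :=
          mul_le_mul_of_nonneg_left e1 (by positivity)
      _ = 10 ^ 4 * J n * L ^ 10 * (J n / Mn 8 n) := by ring
      _ ≤ 10 ^ 4 * J n * L ^ 10 * (2 / L ^ 250) :=
          mul_le_mul_of_nonneg_left (H.jm' hn) (by positivity)
      _ = (2 * 10 ^ 4 / L ^ 238) * (1 / L ^ 2 * J n) := by field_simp
      _ ≤ 1 * (1 / L ^ 2 * J n) := by
          apply mul_le_mul_of_nonneg_right _ (by positivity)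
          rw [div_le_one (by positivity)]
          have b1 : L ^ 2 ≤ L ^ 238 := pow_le_pow_right₀ hL1 (by norm_num)
          nlinarith
      _ = _ := one_mul _
  -- second term
  have e4 : 10 ^ 4 * ∑' m, 8 ^ (m - n) * (J m * ((J m : ℝ) - 1) / Mn 8 m * Xb E n m)
      ≤ 1 / L ^ 2 * J n := by
    calc _ ≤ 10 ^ 4 * (6 * E * J n / L ^ 248) := mul_le_mul_of_nonneg_left h4 (by norm_num)
      _ = (6 * 10 ^ 4 * E / L ^ 246) * (1 / L ^ 2 * J n) := by field_simp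
      _ ≤ 1 * (1 / L ^ 2 * J n) := by
          apply mul_le_mul_of_nonneg_right _ (by positivity)
          rw [div_le_one (by positivity)]
          have b1 : L ^ 2 ≤ L ^ 246 := pow_le_pow_right₀ hL1 (by norm_num)
          nlinarith
      _ = _ := one_mul _
  have e6 : 1 / L ^ 2 ≤ L ^ (-r) := by
    rw [one_div, ← Real.rpow_natCast, ← Real.rpow_neg h0.le]
    apply Real.rpow_le_rpow_of_exponent_le hL1
    push_cast
    linarith
  have e7 : 0 ≤ L ^ (-r) := Real.rpow_nonneg h0.le _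
  calc _ ≤ 1 / L ^ 2 * J n + 1 / L ^ 2 * J n := add_le_add e2 e4
    _ = 2 * (1 / L ^ 2) * J n := by ring
    _ ≤ C₂ * L ^ (-r) * J n := by
        apply mul_le_mul_of_nonneg_right _ (by linarith)
        calc 2 * (1 / L ^ 2) ≤ 2 * L ^ (-r) := by linarith
          _ ≤ C₂ * L ^ (-r) := mul_le_mul_of_nonneg_right hC₂ e7

end

end Pool.Agent.N724.NSP
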