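import Pool.Agent.N724.NSP.Par1

/-!
Existence of the parameters of the cascade of packets (part `S_PAR` of project NSP; adapted from
`Pool/Agent/N977/S/Par3.lean`).
-/

open Set Filter Topology

namespace Pool.Agent.N724.NSP

open Pool.Agent.N977.P Pool.Agent.N977.S
open Pool.Agent.N977.Q (Mn al mu Mn_pos Mn_succ one_le_Mn log_Mn one_le_log logN_le n_le_L sum_small
  large_log al_pos mu_pos L_mono L_succ_le al_succ_le al_le Sgn exp_one_le one_le_L)

theorem par : S_PAR := by
  intro hJ θ p c E B₀ T hθ hθ1 hp hp2 hc hE hB₀ hT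
  set h := (p - 1) / 2 with hh
  have hh0 : 0 < h := by rw [hh]; linarith
  have hh1 : h ≤ 1 := by rw [hh]; linarith
  set r := (p + 1) / 2 with hr
  have hr1 : 1 < r := by rw [hr]; linarith
  have hr2 : r ≤ 3 / 2 := by rw [hr]; linarith
  set C₁ : ℝ := 9 + 142 / h with hC₁
  have hC₁7 : 9 ≤ C₁ := by rw [hC₁]; have : 0 < 142 / h := by positivity
                           linarith
  set C₂ : ℝ := (21 * c * C₁ * E + 6 * c) / θ + 11 with hC₂
  have hC₂11 : 11 ≤ C₂ := by
    rw [hC₂]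
    have : 0 ≤ (21 * c * C₁ * E + 6 * c) / θ := by positivity
    linarith
  set ε : ℝ := min (1 / 5 / C₂) (T / (C₁ / θ)) with hε
  have hεpos : 0 < ε := by rw [hε]; apply lt_min <;> positivity
  set B : ℝ := 5000 * E + B₀ + 2000 + 100 / c + 36864 * C₁ + 80 * c * C₁ / θ with hB
  set A : ℝ := 4 + 1 / c + C₁ / θ + 16 / (9 * c ^ 2) + 12544 * C₁ / (c * θ) with hA
  set X : ℝ := 80 * c + 80 + 2 * C₁ / θ + C₁ / (θ * c) + 100 * c * C₁ / θ with hX
  have hA1 : 1 ≤ A := by
    rw [hA]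
    have h1 : 0 ≤ 1 / c := by positivity
    have h2 : 0 ≤ 16 / (9 * c ^ 2) := by positivity
    have h3 : 0 ≤ C₁ / θ := by positivity
    have h4 : 0 ≤ 12544 * C₁ / (c * θ) := by positivity
    linarith
  obtain ⟨N₁, hN₁3, hN₁⟩ := sum_small hr1 hεpos
  obtain ⟨N₂, hN₂⟩ := large_log B
  obtain ⟨N₃, hN₃3, hN₃⟩ := large_pow_Mn 250 A
  obtain ⟨N₄, hN₄⟩ := large_log X
  refine ⟨max N₁ (max N₂ (max N₃ N₄)), fun i hN d D hd hD => ?_⟩
  have hN3 : (3 : ℕ) ≤ 8 := by norm_num
  have hNi1 : N₁ ≤ Mn 8 i := (le_max_left _ _).trans hN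
  have hNi2 : N₂ ≤ Mn 8 i := ((le_max_left _ _).trans (le_max_right _ _)).trans hN
  have hNi3 : N₃ ≤ Mn 8 i :=
    ((le_max_left _ _).trans ((le_max_right _ _).trans (le_max_right _ _))).trans hN
  have hNi4 : N₄ ≤ Mn 8 i :=
    ((le_max_right _ _).trans ((le_max_right _ _).trans (le_max_right _ _))).trans hN
  have hMM : ∀ n, i ≤ n → Mn 8 i ≤ Mn 8 n := fun n hn => by
    unfold Mn
    exact Nat.mul_le_mul_left _ (Nat.pow_le_pow_right (by norm_num) hn)
  have F : Lf i θ p c E B₀ C₁ h A 8 := {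
    N3 := hN3
    θ0 := hθ
    θ1 := hθ1
    p2 := hp2
    p0 := by linarith
    c0 := hc
    E1 := hE
    B0 := hB₀
    C7 := by linarith
    h0 := hh0
    h1 := hh1
    A1 := hA1
    Lb := fun n hn => hN₂ _ (hNi2.trans (hMM n hn))
    Lp := fun n hn => hN₃ 8 i hNi3 n hn
    Ac := le_rfl }
  have H : Fc i θ p c E B₀ C₁ h A X Jn d D := {
    F := F
    jp := hJ
    Xl := fun n hn => hN₄ _ (hNi4.trans (hMM n hn))
    d1 := hd
    D1 := hD
    X1 := le_rfl }
  have hsum : ∀ n, ∑ j ∈ Finset.range n, LL 8 (i + j) ^ (-r) ≤ ε := fun n => by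
    have := hN₁ _ hNi1 n
    simp only [Mn_add] at this
    exact this
  have hL0 := F.Lpos
  have hL1 := F.L1
  have hα0 := F.α0
  have hpow : ∀ k : ℕ, 2 ≤ k → ∀ n, 1 / LL 8 n ^ k ≤ LL 8 n ^ (-r) := fun k hk n => by
    rw [one_div, ← Real.rpow_natCast, ← Real.rpow_neg (hL0 n).le]
    apply Real.rpow_le_rpow_of_exponent_le (hL1 n)
    have : (2 : ℝ) ≤ k := by exact_mod_cast hk
    linarith
  set τ : ℕ → ℝ := fun n => C₁ * LL 8 n ^ h / al θ 2 p 8 n with hτ
  have hτ0 : ∀ n, 0 < τ n := F.τ0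
  have hα1τ : ∀ n, al θ 2 p 8 (n + 1) * τ n ≤ 16 * (C₁ * LL 8 n) := F.α1τ
  have hMα : ∀ n, (Mn 8 n : ℝ) ^ 2 / al θ 2 p 8 n = 1 / θ * LL 8 n ^ (-p) := fun n => by
    have h1 : 0 < LL 8 n ^ p := Real.rpow_pos_of_pos (hL0 n) p
    have h3 : (Mn 8 n : ℝ) ≠ 0 := by have := F.M1 n; positivity
    rw [Real.rpow_neg (hL0 n).le]
    unfold al
    unfold LL at h1 ⊢
    field_simp
  have hpr : ∀ n, LL 8 n ^ (-p) * LL 8 n ^ h = LL 8 n ^ (-r) := fun n => by
    rw [← Real.rpow_add (hL0 n)]; congr 1; rw [hh, hr]; ring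
  have hMτ : ∀ n, (Mn 8 n : ℝ) ^ 2 * τ n = C₁ / θ * LL 8 n ^ (-r) := fun n => by
    have : (Mn 8 n : ℝ) ^ 2 * τ n = C₁ * LL 8 n ^ h * ((Mn 8 n : ℝ) ^ 2 / al θ 2 p 8 n) := by
      simp only [hτ]; ring
    rw [this, hMα, ← hpr]; ring
  have hcMτ : ∀ n, c * (Mn 8 n : ℝ) ^ 2 * τ n = c * C₁ / θ * LL 8 n ^ (-r) := fun n => by
    rw [mul_assoc, hMτ]; ring
  have hLr1 : ∀ n, LL 8 n ^ (-r) ≤ 1 / LL 8 n := fun n => by
    rw [one_div, ← Real.rpow_neg_one]
    exact Real.rpow_le_rpow_of_exponent_le (hL1 n) (by linarith)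
  have hLr0 : ∀ n, 0 ≤ LL 8 n ^ (-r) := fun n => Real.rpow_nonneg (hL0 n).le _
  have hMsucc : ∀ n, c * (Mn 8 (n + 1) : ℝ) ^ 2 = 4 * (c * (Mn 8 n : ℝ) ^ 2) := fun n => by
    rw [Mn_succ]; push_cast; ring
  have hq' : ∀ n, 1 / LL 8 n ^ 4 / 16 ≤ 1 / LL 8 (n + 1) ^ 4 := fun n => by
    have h1 := hL0 n
    have h2 := hL0 (n + 1)
    rw [div_div, div_le_div_iff₀ (by positivity) (by positivity)]
    have := pow_le_pow_left₀ h2.le (F.L2 n) 4
    nlinarith
  have hqle : ∀ n, 1 / LL 8 (n + 1) ^ 4 ≤ 1 / LL 8 n ^ 4 := fun n => by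
    have h1 := hL0 n
    exact one_div_le_one_div_of_le (by positivity) (pow_le_pow_left₀ h1.le (F.Lm n) 4)
  have hS : Sgn d D (al θ 2 p 8) (mu θ 2 p 8) := {
    d0 := fun n => by have := H.dl n; have := H.cM n; linarith
    dd := fun n => by
      have h1 := H.du n
      have h2 := H.dl (n + 1)
      have h3 := hMsucc n
      have h4 := H.cM n
      rw [h3] at h2
      linarith
    dD := fun n => by
      have h1 := H.du n
      have h2 := H.Dl n
      have h4 := H.cM n
      linarith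
    α0 := hα0
    μ0 := fun n => mu_pos hθ hN3 n }
  have hμ70 : ∀ n, mu θ 2 p 8 n = al θ 2 p 8 n / LL 8 n ^ 70 := fun n => rfl
  have hw10 : ∀ n, i ≤ n → 1 / LL 8 n ^ 200 ≤ 1 / LL 8 n ^ 4 := fun n _ =>
    one_div_le_one_div_of_le (by have := hL0 n; positivity) (pow_le_pow_right₀ (hL1 n) (by norm_num))
  have hP : Pr i E d D (al θ 2 p 8) (mu θ 2 p 8) (fun n => 1 / LL 8 n ^ 2) τ
      (fun n => 1 / LL 8 n ^ 4) (fun n => C₂ * LL 8 n ^ (-r)) (fun n => 1 / (24 * LL 8 n ^ 70))
      (fun n => 1 / LL 8 n ^ 200) := {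
    S := hS
    E1 := hE
    d1 := fun n => by have := H.dl n; have := H.cM n; linarith
    με := fun n hn => by
      rw [hμ70, ← mul_div_assoc, div_le_iff₀ (by have := hL0 n; positivity)]
      have h1 : LL 8 n ≤ LL 8 n ^ 70 := le_self_pow₀ (hL1 n) (by norm_num)
      have h2 := F.L2000 hn
      have h3 := mul_le_mul_of_nonneg_left (show 8 ≤ LL 8 n ^ 70 by linarith) (hα0 n).le
      linarith
    κ0 := fun n _ => by have := hL0 n; positivity
    κ1 := fun n hn => by
      have h1 := F.L2000 hn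
      rw [div_le_div_iff₀ (by positivity) (by norm_num)]
      nlinarith
    s0 := fun n _ => by have := hL0 n; positivity
    s1 := fun n _ => by
      have h1 := one_le_pow₀ (hL1 n) (n := 70)
      rw [div_le_div_iff₀ (by positivity) (by norm_num)]
      linarith
    ss := fun n _ => by
      have h1 := hL0 n
      rw [F.με n, div_div, mul_comm (LL 8 n ^ 70) 24]
      exact one_div_le_one_div_of_le (by positivity)
        (mul_le_mul_of_nonneg_left (pow_le_pow_left₀ h1.le (F.Lm n) 70) (by norm_num))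
    τ0 := fun n _ => by
      have h0 := hL0 n
      have e0 : al θ 2 p 8 n * τ n = C₁ * LL 8 n ^ h := F.ατ n
      rw [e0]
      have e1 : Real.log (1 / (1 / LL 8 n ^ 2)) = 2 * Real.log (LL 8 n) := by
        rw [one_div_one_div, Real.log_pow]; push_cast; ring
      have e2 : Real.log (1 / ((1 / (24 * LL 8 n ^ 70)) ^ 2 / 2))
          = Real.log 1152 + 140 * Real.log (LL 8 n) := by
        have : 1 / ((1 / (24 * LL 8 n ^ 70)) ^ 2 / 2) = 1152 * LL 8 n ^ 140 := by
          field_simp; norm_num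
        rw [this, Real.log_mul (by norm_num) (by positivity), Real.log_pow]; push_cast; ring
      rw [e1, e2]
      have h1 := Real.log_le_rpow_div h0.le hh0
      have h2 := log_le_eight
      have h3 : 1 ≤ LL 8 n ^ h := Real.one_le_rpow (hL1 n) hh0.le
      have h4 : 142 * Real.log (LL 8 n) ≤ 142 / h * LL 8 n ^ h := by
        have : 142 / h * LL 8 n ^ h = 142 * (LL 8 n ^ h / h) := by ring
        rw [this]; linarith
      rw [hC₁]
      nlinarith
    τp := fun n _ => hτ0 n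
    q0 := fun n _ => by have := hL0 n; positivity
    q1 := fun n hn => by
      have h1 := F.L2000 hn
      rw [div_le_div_iff₀ (by positivity) (by norm_num)]
      have : LL 8 n ≤ LL 8 n ^ 4 := le_self_pow₀ (hL1 n) (by norm_num)
      linarith
    w0 := fun n _ => by have := hL0 n; positivity
    wE := fun n hn => by
      have h0 := hL0 n
      have h1 := F.LE hn
      have e : (1 / (24 * LL 8 n ^ 70)) ^ 2 = 1 / (576 * LL 8 n ^ 140) := by
        field_simp; norm_num
      rw [e, mul_one_div, div_le_div_iff₀ (by positivity) (by positivity), one_mul]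
      have h2 : LL 8 n ^ 200 = LL 8 n ^ 60 * LL 8 n ^ 140 := by rw [← pow_add]
      rw [h2]
      have h3 : LL 8 n ≤ LL 8 n ^ 60 := le_self_pow₀ (hL1 n) (by norm_num)
      have h4 : 2304 * E ≤ LL 8 n ^ 60 := by linarith
      have h5 := mul_le_mul_of_nonneg_right h4 (show 0 ≤ LL 8 n ^ 140 by positivity)
      linarith
    wε := fun n hn => by
      have h0 := hL0 n
      have h1 := F.L2000 hn
      rw [F.με n]
      have h2 := F.ex hn
      calc 48 * (1 / LL 8 n ^ 200 * Ex (al θ 2 p 8) (fun n => 1 / LL 8 n ^ 2) n)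
          ≤ 48 * (1 / LL 8 n ^ 200 * (3 * LL 8 n ^ 64)) := by
            apply mul_le_mul_of_nonneg_left _ (by norm_num)
            exact mul_le_mul_of_nonneg_left h2 (by positivity)
        _ = 144 / LL 8 n ^ 66 * (1 / LL 8 n ^ 70) := by field_simp; norm_num
        _ ≤ 1 * (1 / LL 8 n ^ 70) := by
            apply mul_le_mul_of_nonneg_right _ (by positivity)
            rw [div_le_one (by positivity)]
            have : LL 8 n ≤ LL 8 n ^ 66 := le_self_pow₀ (hL1 n) (by norm_num)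
            linarith
        _ = _ := one_mul _
    wq := fun n _ => by
      have h0 := hL0 n
      rw [F.με n]
      have : 1 / LL 8 n ^ 70 * (1 / LL 8 n ^ 4) = 1 / LL 8 n ^ 74 := by field_simp
      rw [this]
      exact one_div_le_one_div_of_le (by positivity) (pow_le_pow_right₀ (hL1 n) (by norm_num))
    qd := fun n hn => by
      have h0 := hL0 n
      have h1 := F.αle' n
      have h2 : mu θ 2 p 8 (n + 1) ≤ al θ 2 p 8 (n + 1) := by
        rw [hμ70]
        exact div_le_self (hα0 _).le (one_le_pow₀ (hL1 _))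
      have h3 := hw10 n hn
      have h4 := F.Lc hn
      have h5 : 1 / 2 * (c * (Mn 8 (n + 1) : ℝ) ^ 2) ≤ D (n + 1) - d (n + 1) := by
        have b1 := H.Dl (n + 1)
        have b2 := H.du (n + 1)
        have b3 := H.cM (n + 1)
        linarith
      refine le_trans ?_ h5
      have h6 : 0 < (Mn 8 (n + 1) : ℝ) ^ 2 := by have := F.M1 (n + 1); positivity
      calc (2 * al θ 2 p 8 (n + 1) + mu θ 2 p 8 (n + 1)) * (1 / LL 8 n ^ 4 + 1 / LL 8 n ^ 200)
          ≤ (3 * ((Mn 8 (n + 1) : ℝ) ^ 2 * (4 * LL 8 n ^ 2))) * (2 * (1 / LL 8 n ^ 4)) := by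
            apply mul_le_mul _ _ (by positivity) (by positivity)
            · linarith
            · linarith
        _ = 24 / LL 8 n ^ 2 * (Mn 8 (n + 1) : ℝ) ^ 2 := by field_simp; ring
        _ ≤ (1 / 2 * c) * (Mn 8 (n + 1) : ℝ) ^ 2 := by
            apply mul_le_mul_of_nonneg_right _ h6.le
            rw [div_le_iff₀ (by positivity)]
            rw [div_le_iff₀ hc] at h4
            have : LL 8 n ≤ LL 8 n ^ 2 := le_self_pow₀ (hL1 n) (by norm_num)
            have := mul_le_mul_of_nonneg_left this hc.le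
            linarith
        _ = _ := by ring
    qτ := fun n hn => by
      have h0 := hL0 n
      have h1 := hα1τ n
      have h2 := F.LC hn
      have h3 := hw10 n hn
      have hC₁0 : 0 < C₁ := by linarith
      have h4 : 0 ≤ al θ 2 p 8 (n + 1) * τ n := mul_nonneg (hα0 _).le (hτ0 n).le
      calc 3 * al θ 2 p 8 (n + 1) * (1 / LL 8 n ^ 4 + 1 / LL 8 n ^ 200) * τ n
          = 3 * (al θ 2 p 8 (n + 1) * τ n) * (1 / LL 8 n ^ 4 + 1 / LL 8 n ^ 200) := by ring
        _ ≤ 3 * (16 * (C₁ * LL 8 n)) * (2 * (1 / LL 8 n ^ 4)) := by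
            apply mul_le_mul (by linarith) (by linarith) (by positivity) (by positivity)
        _ = 96 * C₁ / LL 8 n ^ 3 := by field_simp; norm_num
        _ ≤ 1 := by
            rw [div_le_one (by positivity)]
            have : LL 8 n ≤ LL 8 n ^ 3 := le_self_pow₀ (hL1 n) (by norm_num)
            linarith
    qs := fun n hn => by
      have h0 := hL0 n
      have h1 := hα1τ n
      have h2 := F.LC hn
      have h2' := F.Lc hn
      have hC₁0 : 0 < C₁ := by linarith
      rw [F.με n]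
      have hexp := F.ex hn
      have hex0 : 0 ≤ Ex (al θ 2 p 8) (fun n => 1 / LL 8 n ^ 2) n := by unfold Ex; positivity
      set X := Ex (al θ 2 p 8) (fun n => 1 / LL 8 n ^ 2) n with hX
      have hH2 : (2 * (1 / LL 8 n ^ 70) * X) ^ 2 ≤ 36 / LL 8 n ^ 12 := by
        have hH : 2 * (1 / LL 8 n ^ 70) * X ≤ 6 / LL 8 n ^ 6 := by
          calc _ ≤ 2 * (1 / LL 8 n ^ 70) * (3 * LL 8 n ^ 64) :=
                mul_le_mul_of_nonneg_left hexp (by positivity)
            _ = 6 / LL 8 n ^ 6 := by field_simp; norm_num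
        have := pow_le_pow_left₀ (by positivity) hH 2
        calc _ ≤ _ := this
          _ = _ := by rw [div_pow, ← pow_mul]; norm_num
      have hd2 : 15 * c * (Mn 8 (n + 1) : ℝ) ^ 2 ≤ d (n + 2) := by
        have b1 := H.dl (n + 2)
        have b2 := hMsucc (n + 1)
        have b3 := H.cM (n + 1)
        have b4 : c * (Mn 8 (n + 2) : ℝ) ^ 2 = 4 * (c * (Mn 8 (n + 1) : ℝ) ^ 2) := b2
        rw [b4] at b1
        linarith
      have hd3 : 0 < 15 * c * (Mn 8 (n + 1) : ℝ) ^ 2 := by have := H.cM (n + 1); nlinarith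
      have hd4 : 1 / d (n + 2) ≤ 1 / (15 * c * (Mn 8 (n + 1) : ℝ) ^ 2) :=
        one_div_le_one_div_of_le hd3 hd2
      have hfirst : 2 * al θ 2 p 8 (n + 1) * ((2 * (1 / LL 8 n ^ 70) * (1 / LL 8 n ^ 4)) ^ 2
          * (1 / d (n + 2))) ≤ 1 / LL 8 n ^ 4 / 32 := by
        have a0 := F.αle' n
        have a2 : (Mn 8 (n + 1) : ℝ) ≠ 0 := by have := F.M1 (n + 1); positivity
        have a3 : 0 ≤ al θ 2 p 8 (n + 1) := (hα0 (n + 1)).le
        calc _ ≤ 2 * al θ 2 p 8 (n + 1) * ((2 * (1 / LL 8 n ^ 70) * (1 / LL 8 n ^ 4)) ^ 2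
              * (1 / (15 * c * (Mn 8 (n + 1) : ℝ) ^ 2))) := by
              apply mul_le_mul_of_nonneg_left _ (by positivity)
              exact mul_le_mul_of_nonneg_left hd4 (by positivity)
          _ ≤ 2 * ((Mn 8 (n + 1) : ℝ) ^ 2 * (4 * LL 8 n ^ 2))
              * ((2 * (1 / LL 8 n ^ 70) * (1 / LL 8 n ^ 4)) ^ 2
              * (1 / (15 * c * (Mn 8 (n + 1) : ℝ) ^ 2))) := by
              apply mul_le_mul_of_nonneg_right _ (by positivity)
              linarith
          _ = (1024 / 15 / c) / LL 8 n ^ 142 * (1 / LL 8 n ^ 4 / 32) := by field_simp; norm_num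
          _ ≤ 1 * (1 / LL 8 n ^ 4 / 32) := by
              apply mul_le_mul_of_nonneg_right _ (by positivity)
              rw [div_le_one (by positivity)]
              have b1 : LL 8 n ≤ LL 8 n ^ 142 := le_self_pow₀ (hL1 n) (by norm_num)
              have b2 : 1024 / 15 / c ≤ 100 / c := div_le_div_of_nonneg_right (by norm_num) hc.le
              linarith
          _ = _ := one_mul _
      have hsecond : 2 * al θ 2 p 8 (n + 1) * ((2 * (1 / LL 8 n ^ 70) * X) ^ 2 * τ n)
          ≤ 1 / LL 8 n ^ 4 / 32 := by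
        calc 2 * al θ 2 p 8 (n + 1) * ((2 * (1 / LL 8 n ^ 70) * X) ^ 2 * τ n)
            = 2 * (2 * (1 / LL 8 n ^ 70) * X) ^ 2 * (al θ 2 p 8 (n + 1) * τ n) := by ring
          _ ≤ 2 * (36 / LL 8 n ^ 12) * (16 * (C₁ * LL 8 n)) := by
              apply mul_le_mul (by linarith) h1 _ (by positivity)
              exact mul_nonneg (hα0 (n + 1)).le (hτ0 n).le
          _ = 36864 * C₁ / LL 8 n ^ 7 * (1 / LL 8 n ^ 4 / 32) := by field_simp; norm_num
          _ ≤ 1 * (1 / LL 8 n ^ 4 / 32) := by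
              apply mul_le_mul_of_nonneg_right _ (by positivity)
              rw [div_le_one (by positivity)]
              have h3 : LL 8 n ≤ LL 8 n ^ 7 := le_self_pow₀ (hL1 n) (by norm_num)
              linarith
          _ = _ := one_mul _
      have h5 := hq' n
      rw [mul_add]
      have e6 : 1 / LL 8 n ^ 4 / 32 + 1 / LL 8 n ^ 4 / 32 = 1 / LL 8 n ^ 4 / 16 := by ring
      linarith
    sd := fun n hn => by
      have h0 := hL0 n
      have h1 := hα1τ n
      have h2 := F.LC hn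
      have h3 := hw10 n hn
      have hC₁0 : 0 < C₁ := by linarith
      have e1 : D (n + 1) * τ n ≤ 21 * (c * C₁ / θ * LL 8 n ^ (-r)) := by
        have b1 := H.Du (n + 1)
        rw [hMsucc] at b1
        have b2 : D (n + 1) ≤ 21 * (c * (Mn 8 n : ℝ) ^ 2) := by
          have := H.cM n
          linarith
        calc D (n + 1) * τ n ≤ 21 * (c * (Mn 8 n : ℝ) ^ 2) * τ n :=
              mul_le_mul_of_nonneg_right b2 (hτ0 n).le
          _ = _ := by rw [← hcMτ]; ring
      have e2 : 21 * (c * C₁ / θ * LL 8 n ^ (-r)) ≤ 1 / 4 := by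
        have a1 := (H.XL hn).2.2.2
        have a2 : 21 * (c * C₁ / θ * LL 8 n ^ (-r)) ≤ 21 * (c * C₁ / θ * (1 / LL 8 n)) := by
          have := mul_le_mul_of_nonneg_left (hLr1 n) (by positivity : 0 ≤ c * C₁ / θ)
          linarith
        refine a2.trans ?_
        have a3 : 21 * (c * C₁ / θ * (1 / LL 8 n)) = 84 / 100 * (100 * c * C₁ / θ / LL 8 n) * (1 / 4) := by
          ring
        rw [a3]
        have a4 : 100 * c * C₁ / θ / LL 8 n ≤ 1 := by rw [div_le_one h0]; exact a1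
        have a5 : 0 ≤ 100 * c * C₁ / θ / LL 8 n := by positivity
        linarith
      have e3 : al θ 2 p 8 (n + 1) * (1 / LL 8 n ^ 4 + 2 * (1 / LL 8 (n + 1) ^ 4)
          + 3 * (1 / LL 8 n ^ 200)) * τ n ≤ 1 / 4 := by
        have a1 := hqle n
        have a2 : 1 / LL 8 n ^ 4 + 2 * (1 / LL 8 (n + 1) ^ 4) + 3 * (1 / LL 8 n ^ 200)
            ≤ 6 / LL 8 n ^ 4 := by
          have : 6 / LL 8 n ^ 4 = 6 * (1 / LL 8 n ^ 4) := by ring
          rw [this]; linarith
        have a3 : 0 ≤ al θ 2 p 8 (n + 1) * τ n := mul_nonneg (hα0 (n + 1)).le (hτ0 n).le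
        calc _ = (1 / LL 8 n ^ 4 + 2 * (1 / LL 8 (n + 1) ^ 4) + 3 * (1 / LL 8 n ^ 200))
              * (al θ 2 p 8 (n + 1) * τ n) := by ring
          _ ≤ (6 / LL 8 n ^ 4) * (16 * (C₁ * LL 8 n)) :=
              mul_le_mul a2 h1 a3 (by positivity)
          _ = 384 * C₁ / LL 8 n ^ 3 * (1 / 4) := by field_simp; norm_num
          _ ≤ 1 * (1 / 4) := by
              apply mul_le_mul_of_nonneg_right _ (by norm_num)
              rw [div_le_one (by positivity)]
              have : LL 8 n ≤ LL 8 n ^ 3 := le_self_pow₀ (hL1 n) (by norm_num)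
              linarith
          _ = 1 / 4 := one_mul _
      have e4 : mu θ 2 p 8 (n + 1) * τ n ≤ 1 / 4 := by
        have a1 : mu θ 2 p 8 (n + 1) ≤ al θ 2 p 8 (n + 1) / LL 8 n ^ 2 := by
          rw [hμ70]
          apply div_le_div_of_nonneg_left (hα0 (n + 1)).le (by positivity)
          calc LL 8 n ^ 2 ≤ LL 8 (n + 1) ^ 2 := pow_le_pow_left₀ h0.le (F.Lm n) 2
            _ ≤ LL 8 (n + 1) ^ 70 := pow_le_pow_right₀ (hL1 (n + 1)) (by norm_num)
        calc mu θ 2 p 8 (n + 1) * τ n ≤ al θ 2 p 8 (n + 1) / LL 8 n ^ 2 * τ n :=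
              mul_le_mul_of_nonneg_right a1 (hτ0 n).le
          _ = al θ 2 p 8 (n + 1) * τ n / LL 8 n ^ 2 := by ring
          _ ≤ 16 * (C₁ * LL 8 n) / LL 8 n ^ 2 := div_le_div_of_nonneg_right h1 (by positivity)
          _ = 64 * C₁ / LL 8 n * (1 / 4) := by field_simp; norm_num
          _ ≤ 1 * (1 / 4) := by
              apply mul_le_mul_of_nonneg_right _ (by norm_num)
              rw [div_le_one h0]; linarith
          _ = 1 / 4 := one_mul _
      rw [add_mul, add_mul]
      linarith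
    ℓ1 := fun n hn => by
      have h0 := hL0 n
      have hr0 := hLr0 n
      rw [F.με n]
      have e1 : E * (d n + d (n + 1)) * τ n ≤ E * (21 * (c * C₁ / θ * LL 8 n ^ (-r))) := by
        have b1 := H.du n
        have b2 := H.du (n + 1)
        rw [hMsucc] at b2
        have b3 : d n + d (n + 1) ≤ 21 * (c * (Mn 8 n : ℝ) ^ 2) := by
          have := H.cM n
          linarith
        have b4 : (d n + d (n + 1)) * τ n ≤ 21 * (c * (Mn 8 n : ℝ) ^ 2) * τ n :=
          mul_le_mul_of_nonneg_right b3 (hτ0 n).le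
        rw [mul_assoc E]
        apply mul_le_mul_of_nonneg_left _ (by linarith)
        refine b4.trans (le_of_eq ?_)
        rw [← hcMτ]; ring
      have e2 : D n / al θ 2 p 8 n ≤ 6 * c / θ * LL 8 n ^ (-r) := by
        have b1 := H.Du n
        have b2 : D n ≤ 6 * (c * (Mn 8 n : ℝ) ^ 2) := by
          have := H.cM n
          linarith
        refine (div_le_div_of_nonneg_right b2 (hα0 n).le).trans ?_
        have a1 : 6 * (c * (Mn 8 n : ℝ) ^ 2) / al θ 2 p 8 n
            = 6 * c * ((Mn 8 n : ℝ) ^ 2 / al θ 2 p 8 n) := by ring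
        rw [a1, hMα]
        have a2 : LL 8 n ^ (-p) ≤ LL 8 n ^ (-r) :=
          Real.rpow_le_rpow_of_exponent_le (hL1 n) (by rw [hr]; linarith)
        have a3 := mul_le_mul_of_nonneg_left a2 (by positivity : 0 ≤ 6 * c / θ)
        calc 6 * c * (1 / θ * LL 8 n ^ (-p)) = 6 * c / θ * LL 8 n ^ (-p) := by ring
          _ ≤ _ := a3
      have e3 := hpow 4 (by norm_num) n
      have e4 := (hqle n).trans e3
      have e5 := hpow 70 (by norm_num) n
      have e6 := hpow 2 le_rfl n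
      have e8 := hpow 200 (by norm_num) n
      have e7 : C₂ * LL 8 n ^ (-r)
          = E * (21 * (c * C₁ / θ * LL 8 n ^ (-r))) + 6 * c / θ * LL 8 n ^ (-r)
            + 11 * LL 8 n ^ (-r) := by rw [hC₂]; ring
      rw [e7]
      linarith }
  refine ⟨fun n => 1 / LL 8 n ^ 2, τ, fun n => 1 / LL 8 n ^ 4, fun n => C₂ * LL 8 n ^ (-r),
    fun n => 1 / (24 * LL 8 n ^ 70), fun n => 1 / LL 8 n ^ 200, ?_⟩
  exact {
    P := hP
    Lc := fun n hn => (H.XL hn).1
    w1 := fun n hn => H.w1 hn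
    wτ := fun n hn => H.wτ hn
    Y0 := fun n hn => H.Y0 hn
    Ys := fun n hn => H.Ys hn
    η0 := fun n hn => (H.η hn (C₂ := C₂) (r := r) (by linarith) (by linarith)).1
    η := fun n hn => (H.η hn (C₂ := C₂) (r := r) (by linarith) (by linarith)).2
    G0 := fun n hn => (H.G hn).1
    G := fun n hn => (H.G hn).2
    ℓs := fun n => by
      rw [← Finset.mul_sum]
      have h1 := hsum n
      have h2 : C₂ * ∑ j ∈ Finset.range n, LL 8 (i + j) ^ (-r) ≤ C₂ * ε :=
        mul_le_mul_of_nonneg_left h1 (by linarith)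
      have h3 : C₂ * ε ≤ C₂ * (1 / 5 / C₂) :=
        mul_le_mul_of_nonneg_left (min_le_left _ _) (by linarith)
      have h4 : C₂ * (1 / 5 / C₂) = 1 / 5 := by field_simp
      linarith
    τs := fun n => by
      have h1 := hsum n
      have h2 : ∀ j ∈ Finset.range n, τ (i + j) ≤ C₁ / θ * LL 8 (i + j) ^ (-r) := by
        intro j _
        rw [← hMτ]
        have : (1 : ℝ) ≤ (Mn 8 (i + j) : ℝ) ^ 2 := one_le_pow₀ (F.M1 (i + j))
        exact le_mul_of_one_le_left (hτ0 _).le this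
      have hC₁0 : 0 < C₁ := by linarith
      calc _ ≤ ∑ j ∈ Finset.range n, C₁ / θ * LL 8 (i + j) ^ (-r) := Finset.sum_le_sum h2
        _ = C₁ / θ * ∑ j ∈ Finset.range n, LL 8 (i + j) ^ (-r) := by rw [Finset.mul_sum]
        _ ≤ C₁ / θ * ε := mul_le_mul_of_nonneg_left h1 (by positivity)
        _ ≤ C₁ / θ * (T / (C₁ / θ)) := mul_le_mul_of_nonneg_left (min_le_right _ _) (by positivity)
        _ = T := by field_simp }

end Pool.Agent.N724.NSP
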